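import Pool.Agent.W192.CY.Stn

/-!
# CY-WPP: Kloosterman sums modulo prime powers
-/

set_option autoImplicit false

open Finset

namespace Pool.Agent.W74.CY

open Pool.Agent.W192.CY

theorem sum_char (q : ℕ) [NeZero q] (c : ZMod q) :
    ∑ z : ZMod q, (ZMod.stdAddChar (c * z) : ℂ) = if c = 0 then (q : ℂ) else 0 := by
  have h1 := AddChar.sum_mulShift (R := ZMod q) (R' := ℂ) c (ZMod.isPrimitive_stdAddChar q)
  rw [ZMod.card] at h1
  simp only [mul_comm c]
  rw [h1]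
  split_ifs <;> simp

theorem norm_char (q : ℕ) [NeZero q] (c : ZMod q) : ‖(ZMod.stdAddChar c : ℂ)‖ = 1 :=
  AddChar.norm_apply _ _

/-- the condition -/
def cnd {q : ℕ} (n a b : ZMod q) (u : (ZMod q)ˣ) : ZMod q :=
  n * (a * (u : ZMod q) - b * ((u⁻¹ : (ZMod q)ˣ) : ZMod q))

theorem restrict (q : ℕ) [NeZero q] (n a b : ZMod q) (hn : n * n = 0) :
    ∑ u : (ZMod q)ˣ, (ZMod.stdAddChar (a * (u : ZMod q) + b * ((u⁻¹ : (ZMod q)ˣ) : ZMod q)) : ℂ) =
      ∑ u ∈ univ.filter (fun u : (ZMod q)ˣ => cnd n a b u = 0),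
        (ZMod.stdAddChar (a * (u : ZMod q) + b * ((u⁻¹ : (ZMod q)ˣ) : ZMod q)) : ℂ) := by
  set f : (ZMod q)ˣ → ZMod q := fun u => a * (u : ZMod q) + b * ((u⁻¹ : (ZMod q)ˣ) : ZMod q)
    with hf
  have h1 : ∀ z : ZMod q, ∑ u : (ZMod q)ˣ, (ZMod.stdAddChar (f u) : ℂ) =
      ∑ u : (ZMod q)ˣ, (ZMod.stdAddChar (f u) : ℂ) * ZMod.stdAddChar (cnd n a b u * z) := by
    intro z
    let w : (ZMod q)ˣ := ⟨1 + n * z, 1 - n * z, by linear_combination (-z * z) * hn,
      by linear_combination (-z * z) * hn⟩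
    rw [← Equiv.sum_comp (Equiv.mulRight w)]
    refine Finset.sum_congr rfl fun u _ => ?_
    rw [← AddChar.map_add_eq_mul]
    congr 1
    simp only [hf, Equiv.coe_mulRight, mul_inv, Units.val_mul, cnd]
    have h2 : ((w : (ZMod q)ˣ) : ZMod q) = 1 + n * z := rfl
    have h3 : ((w⁻¹ : (ZMod q)ˣ) : ZMod q) = 1 - n * z := rfl
    rw [h2, h3]
    ring
  have hq : (q : ℂ) ≠ 0 := Nat.cast_ne_zero.2 (NeZero.ne q)
  apply mul_left_cancel₀ hq
  have h2 : (q : ℂ) * ∑ u : (ZMod q)ˣ, (ZMod.stdAddChar (f u) : ℂ) =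
      ∑ z : ZMod q, ∑ u : (ZMod q)ˣ, (ZMod.stdAddChar (f u) : ℂ) := by
    rw [Finset.sum_const, Finset.card_univ, ZMod.card, nsmul_eq_mul]
  rw [h2, Finset.sum_congr rfl fun z _ => h1 z, Finset.sum_comm, Finset.mul_sum, Finset.sum_filter]
  refine Finset.sum_congr rfl fun u _ => ?_
  rw [← Finset.mul_sum, sum_char]
  split_ifs
  · ring
  · ring

theorem average (q : ℕ) [NeZero q] (n r a b : ZMod q) (hnr : n * r = 0) (hr : r * r * r = 0) :
    (q : ℂ) * ∑ u ∈ univ.filter (fun u : (ZMod q)ˣ => cnd n a b u = 0),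
        (ZMod.stdAddChar (a * (u : ZMod q) + b * ((u⁻¹ : (ZMod q)ˣ) : ZMod q)) : ℂ) =
      ∑ u ∈ univ.filter (fun u : (ZMod q)ˣ => cnd n a b u = 0),
        (ZMod.stdAddChar (a * (u : ZMod q) + b * ((u⁻¹ : (ZMod q)ˣ) : ZMod q)) : ℂ) *
          ∑ z : ZMod q, ZMod.stdAddChar (cnd r a b u * z +
            (b * ((u⁻¹ : (ZMod q)ˣ) : ZMod q)) * (r * r) * (z * z)) := by
  set f : (ZMod q)ˣ → ZMod q := fun u => a * (u : ZMod q) + b * ((u⁻¹ : (ZMod q)ˣ) : ZMod q)
    with hf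
  have h1 : ∀ z : ZMod q, ∑ u ∈ univ.filter (fun u : (ZMod q)ˣ => cnd n a b u = 0),
      (ZMod.stdAddChar (f u) : ℂ) =
      ∑ u ∈ univ.filter (fun u : (ZMod q)ˣ => cnd n a b u = 0), (ZMod.stdAddChar (f u) : ℂ) *
        ZMod.stdAddChar (cnd r a b u * z +
            (b * ((u⁻¹ : (ZMod q)ˣ) : ZMod q)) * (r * r) * (z * z)) := by
    intro z
    let w : (ZMod q)ˣ := ⟨1 + r * z, 1 - r * z + r * r * (z * z),
      by linear_combination (z * z * z) * hr, by linear_combination (z * z * z) * hr⟩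
    have h2 : ((w : (ZMod q)ˣ) : ZMod q) = 1 + r * z := rfl
    have h3 : ((w⁻¹ : (ZMod q)ˣ) : ZMod q) = 1 - r * z + r * r * (z * z) := rfl
    rw [Finset.sum_filter, ← Equiv.sum_comp (Equiv.mulRight w), Finset.sum_filter]
    refine Finset.sum_congr rfl fun u _ => ?_
    have h4 : cnd n a b (Equiv.mulRight w u) = cnd n a b u := by
      simp only [Equiv.coe_mulRight, mul_inv, Units.val_mul, cnd]
      rw [h2, h3]
      linear_combination (a * u * z + b * ((u⁻¹ : (ZMod q)ˣ) : ZMod q) * z -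
        b * ((u⁻¹ : (ZMod q)ˣ) : ZMod q) * r * z * z) * hnr
    rw [h4]
    split_ifs
    · rw [← AddChar.map_add_eq_mul]
      congr 1
      simp only [hf, Equiv.coe_mulRight, mul_inv, Units.val_mul, cnd]
      rw [h2, h3]
      ring
    · rfl
  have h2 : (q : ℂ) * ∑ u ∈ univ.filter (fun u : (ZMod q)ˣ => cnd n a b u = 0),
      (ZMod.stdAddChar (f u) : ℂ) =
      ∑ z : ZMod q, ∑ u ∈ univ.filter (fun u : (ZMod q)ˣ => cnd n a b u = 0),
        (ZMod.stdAddChar (f u) : ℂ) := by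
    rw [Finset.sum_const, Finset.card_univ, ZMod.card, nsmul_eq_mul]
  rw [h2, Finset.sum_congr rfl fun z _ => h1 z, Finset.sum_comm]
  refine Finset.sum_congr rfl fun u _ => ?_
  rw [← Finset.mul_sum]

/-- a quadratic exponential sum -/
theorem quad (q : ℕ) [NeZero q] (s c d : ZMod q) (hd : IsUnit (2 * d)) (D : ℕ)
    (hD : (univ.filter fun h : ZMod q => s * h = 0).card ≤ D) :
    ‖∑ z : ZMod q, (ZMod.stdAddChar (s * c * z + d * s * (z * z)) : ℂ)‖ ^ 2 ≤ q * D := by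
  set g : ZMod q → ℂ := fun z => (ZMod.stdAddChar (s * c * z + d * s * (z * z)) : ℂ) with hg
  have h1 : ((‖∑ z, g z‖ ^ 2 : ℝ) : ℂ) = ∑ h : ZMod q, ∑ z : ZMod q,
      g (z + h) * (starRingEnd ℂ) (g z) := by
    have e1 : ((‖∑ z, g z‖ ^ 2 : ℝ) : ℂ) = (∑ z, g z) * (starRingEnd ℂ) (∑ z, g z) := by
      rw [Complex.mul_conj, Complex.normSq_eq_norm_sq]
    rw [e1, map_sum, Finset.sum_mul_sum, Finset.sum_comm]
    rw [Finset.sum_comm (f := fun h z => g (z + h) * (starRingEnd ℂ) (g z))]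
    refine Finset.sum_congr rfl fun z _ => ?_
    rw [← Equiv.sum_comp (Equiv.addLeft z)]
    rfl
  have h2 : ∀ h : ZMod q, ∑ z : ZMod q, g (z + h) * (starRingEnd ℂ) (g z) =
      if s * h = 0 then (q : ℂ) else 0 := by
    intro h
    have e1 : ∀ z : ZMod q, g (z + h) * (starRingEnd ℂ) (g z) =
        g h * ZMod.stdAddChar ((2 * d * (s * h)) * z) := by
      intro z
      simp only [hg]
      rw [← AddChar.map_neg_eq_conj, ← AddChar.map_add_eq_mul, ← AddChar.map_add_eq_mul]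
      congr 1
      ring
    simp only [e1]
    rw [← Finset.mul_sum, sum_char]
    have e2 : 2 * d * (s * h) = 0 ↔ s * h = 0 := hd.mul_right_eq_zero
    by_cases h0 : s * h = 0
    · rw [if_pos (e2.2 h0), if_pos h0]
      have : g h = 1 := by
        simp only [hg]
        have : s * c * h + d * s * (h * h) = 0 := by linear_combination (c + d * h) * h0
        rw [this, AddChar.map_zero_eq_one]
      rw [this, one_mul]
    · rw [if_neg (fun h' => h0 (e2.1 h')), if_neg h0, mul_zero]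
  rw [Finset.sum_congr rfl fun h _ => h2 h, ← Finset.sum_filter, Finset.sum_const,
    nsmul_eq_mul] at h1
  have h3 : ‖∑ z, g z‖ ^ 2 = ((univ.filter fun h : ZMod q => s * h = 0).card : ℝ) * q := by
    exact_mod_cast h1
  rw [h3, mul_comm]
  exact mul_le_mul_of_nonneg_left (by exact_mod_cast hD) (Nat.cast_nonneg _)

theorem int_lemma (p m : ℕ) (hp : p.Prime) (A B U V : ℤ) (hB : ¬ (p : ℤ) ∣ B)
    (hV : ¬ (p : ℤ) ∣ V) (hm : 1 ≤ m) (h1 : (p : ℤ) ^ m ∣ A * U ^ 2 - B)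
    (h2 : (p : ℤ) ^ m ∣ A * V ^ 2 - B) :
    (p : ℤ) ^ m ∣ 2 * (U - V) ∨ (p : ℤ) ^ m ∣ 2 * (U + V) := by
  have hpp : Prime (p : ℤ) := Nat.prime_iff_prime_int.1 hp
  have hA : ¬ (p : ℤ) ∣ A := by
    intro h
    apply hB
    have h3 : (p : ℤ) ∣ A * U ^ 2 - B := (dvd_pow_self _ (by omega)).trans h1
    have h4 : (p : ℤ) ∣ A * U ^ 2 := Dvd.dvd.mul_right h _
    have h5 := dvd_sub h4 h3
    rwa [sub_sub_cancel] at h5
  have h3 : (p : ℤ) ^ m ∣ A * ((U - V) * (U + V)) := by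
    have := dvd_sub h1 h2
    have e : A * U ^ 2 - B - (A * V ^ 2 - B) = A * ((U - V) * (U + V)) := by ring
    rwa [e] at this
  have hcop : ∀ (i : ℕ) (x : ℤ), ¬ (p : ℤ) ∣ x → IsCoprime ((p : ℤ) ^ i) x := fun i x hx =>
    ((Prime.coprime_iff_not_dvd hpp).2 hx).pow_left
  have h4 : (p : ℤ) ^ m ∣ (U - V) * (U + V) := (hcop m A hA).dvd_of_dvd_mul_left h3
  obtain ⟨x, y, hx, hy, hxy⟩ := exists_dvd_and_dvd_of_dvd_mul h4
  obtain ⟨i, hi, hi'⟩ := (dvd_prime_pow hpp m).1 (Dvd.intro _ hxy.symm)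
  obtain ⟨j, hj, hj'⟩ := (dvd_prime_pow hpp m).1 (Dvd.intro_left _ hxy.symm)
  have hxi : (p : ℤ) ^ i ∣ U - V := hi'.symm.dvd.trans hx
  have hyj : (p : ℤ) ^ j ∣ U + V := hj'.symm.dvd.trans hy
  have hmij : (p : ℤ) ^ m ∣ (p : ℤ) ^ i * (p : ℤ) ^ j := by
    rw [hxy]
    exact mul_dvd_mul hi'.dvd hj'.dvd
  rcases le_total i j with hij | hij
  · right
    have h5 : (p : ℤ) ^ i ∣ 2 * V := by
      have := dvd_sub ((pow_dvd_pow _ hij).trans hyj) hxi
      have e : U + V - (U - V) = 2 * V := by ring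
      rwa [e] at this
    have h6 : (p : ℤ) ^ i ∣ 2 := (hcop i V hV).dvd_of_dvd_mul_right h5
    exact hmij.trans (mul_dvd_mul h6 hyj)
  · left
    have h5 : (p : ℤ) ^ j ∣ 2 * V := by
      have := dvd_sub hyj ((pow_dvd_pow _ hij).trans hxi)
      have e : U + V - (U - V) = 2 * V := by ring
      rwa [e] at this
    have h6 : (p : ℤ) ^ j ∣ 2 := (hcop j V hV).dvd_of_dvd_mul_right h5
    rw [mul_comm] at hmij
    exact hmij.trans (mul_dvd_mul h6 hxi)

theorem not_dvd_of_unit (p k : ℕ) (hp : p.Prime) (hk : 1 ≤ k) (x : ZMod (p ^ k)) (hx : IsUnit x)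
    (X : ℤ) (hX : (X : ZMod (p ^ k)) = x) : ¬ (p : ℤ) ∣ X := by
  rintro ⟨Y, rfl⟩
  have h1 : x ^ k = 0 := by
    rw [← hX, Int.cast_mul, mul_pow, Int.cast_natCast]
    have : ((p : ZMod (p ^ k)) ^ k) = ((p ^ k : ℕ) : ZMod (p ^ k)) := by push_cast; rfl
    rw [this, ZMod.natCast_self, zero_mul]
  have h2 := hx.pow k
  rw [h1] at h2
  have : Fact (1 < p ^ k) := ⟨Nat.one_lt_pow (by omega) hp.one_lt⟩
  exact not_isUnit_zero h2

theorem pair (p m m' : ℕ) (hp : p.Prime) (hm : 1 ≤ m) [NeZero (p ^ (m + m'))]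
    (a b : ZMod (p ^ (m + m'))) (hb : IsUnit b) (u v : (ZMod (p ^ (m + m')))ˣ)
    (hu : cnd ((p ^ m' : ℕ) : ZMod (p ^ (m + m'))) a b u = 0)
    (hv : cnd ((p ^ m' : ℕ) : ZMod (p ^ (m + m'))) a b v = 0) :
    ((p ^ m' : ℕ) : ZMod (p ^ (m + m'))) * (2 * ((u : ZMod (p ^ (m + m'))) - v)) = 0 ∨
    ((p ^ m' : ℕ) : ZMod (p ^ (m + m'))) * (2 * ((u : ZMod (p ^ (m + m'))) + v)) = 0 := by
  obtain ⟨A, hA⟩ := ZMod.intCast_surjective a
  obtain ⟨B, hB⟩ := ZMod.intCast_surjective b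
  obtain ⟨U, hU⟩ := ZMod.intCast_surjective (u : ZMod (p ^ (m + m')))
  obtain ⟨V, hV⟩ := ZMod.intCast_surjective (v : ZMod (p ^ (m + m')))
  have hkey : ∀ X : ℤ, (((p ^ m' : ℕ) : ZMod (p ^ (m + m'))) * (X : ZMod (p ^ (m + m'))) = 0 ↔
      (p : ℤ) ^ m ∣ X) := by
    intro X
    have h1 : ((p ^ m' : ℕ) : ZMod (p ^ (m + m'))) * (X : ZMod (p ^ (m + m'))) =
        (((p : ℤ) ^ m' * X : ℤ) : ZMod (p ^ (m + m'))) := by push_cast; rfl
    rw [h1, ZMod.intCast_zmod_eq_zero_iff_dvd]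
    have hp0 : (p : ℤ) ^ m' ≠ 0 := pow_ne_zero _ (by exact_mod_cast hp.ne_zero)
    have h2 : ((p ^ (m + m') : ℕ) : ℤ) = (p : ℤ) ^ m' * (p : ℤ) ^ m := by
      push_cast
      ring
    rw [h2, mul_dvd_mul_iff_left hp0]
  have hsq : ∀ (w : (ZMod (p ^ (m + m')))ˣ) (W : ℤ), (W : ZMod (p ^ (m + m'))) = w →
      cnd ((p ^ m' : ℕ) : ZMod (p ^ (m + m'))) a b w = 0 → (p : ℤ) ^ m ∣ A * W ^ 2 - B := by
    intro w W hW hw
    rw [← hkey]
    push_cast
    rw [hA, hW, hB]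
    unfold cnd at hw
    have h1 : (w : ZMod (p ^ (m + m'))) * ((w⁻¹ : (ZMod (p ^ (m + m')))ˣ) :
      ZMod (p ^ (m + m'))) = 1 := w.mul_inv
    push_cast at hw
    linear_combination (w : ZMod (p ^ (m + m'))) * hw + (p : ZMod (p ^ (m + m'))) ^ m' * b * h1
  have h1 := int_lemma p m hp A B U V
    (not_dvd_of_unit p (m + m') hp (by omega) b hb B hB)
    (not_dvd_of_unit p (m + m') hp (by omega) _ v.isUnit V hV) hm (hsq u U hU hu) (hsq v V hV hv)
  rcases h1 with h1 | h1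
  · left
    rw [← hkey] at h1
    push_cast at h1
    rw [hU, hV] at h1
    push_cast
    exact h1
  · right
    rw [← hkey] at h1
    push_cast at h1
    rw [hU, hV] at h1
    push_cast
    exact h1

theorem card_shift (q : ℕ) [NeZero q] (N : ℕ) (hN : 0 < N) (c : ZMod q) :
    (univ.filter fun u : (ZMod q)ˣ => (N : ZMod q) * ((u : ZMod q) + c) = 0).card ≤ N := by
  have h1 := IsAddCyclic.card_nsmul_eq_zero_le (α := ZMod q) hN
  refine le_trans ?_ h1
  refine Finset.card_le_card_of_injOn (fun u => (u : ZMod q) + c) ?_ ?_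
  · intro u hu
    rw [Finset.mem_coe, Finset.mem_filter] at hu
    rw [Finset.mem_coe, Finset.mem_filter]
    refine ⟨Finset.mem_univ _, ?_⟩
    rw [nsmul_eq_mul]
    exact hu.2
  · intro u _ v _ h
    exact Units.ext (add_right_cancel h)

theorem card_T (p m m' : ℕ) (hp : p.Prime) (hm : 1 ≤ m) [NeZero (p ^ (m + m'))]
    (a b : ZMod (p ^ (m + m'))) (hb : IsUnit b) :
    (univ.filter fun u : (ZMod (p ^ (m + m')))ˣ =>
      cnd ((p ^ m' : ℕ) : ZMod (p ^ (m + m'))) a b u = 0).card ≤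
      if p = 2 then 4 * p ^ m' else 2 * p ^ m' := by
  rcases Finset.eq_empty_or_nonempty (univ.filter fun u : (ZMod (p ^ (m + m')))ˣ =>
      cnd ((p ^ m' : ℕ) : ZMod (p ^ (m + m'))) a b u = 0) with h0 | ⟨v, hv⟩
  · rw [h0, Finset.card_empty]
    exact Nat.zero_le _
  · rw [Finset.mem_filter] at hv
    have hp0 : 0 < p ^ m' := pow_pos hp.pos _
    -- common part
    have hcom : ∀ N : ℕ, 0 < N → (∀ x : ZMod (p ^ (m + m')),
        ((p ^ m' : ℕ) : ZMod (p ^ (m + m'))) * (2 * x) = 0 → (N : ZMod (p ^ (m + m'))) * x = 0) →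
        (univ.filter fun u : (ZMod (p ^ (m + m')))ˣ =>
      cnd ((p ^ m' : ℕ) : ZMod (p ^ (m + m'))) a b u = 0).card ≤ 2 * N := by
      intro N hN hNx
      have h1 : (univ.filter fun u : (ZMod (p ^ (m + m')))ˣ =>
          cnd ((p ^ m' : ℕ) : ZMod (p ^ (m + m'))) a b u = 0) ⊆
          (univ.filter fun u : (ZMod (p ^ (m + m')))ˣ =>
            (N : ZMod (p ^ (m + m'))) * ((u : ZMod (p ^ (m + m'))) + (-v)) = 0) ∪
          (univ.filter fun u : (ZMod (p ^ (m + m')))ˣ =>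
            (N : ZMod (p ^ (m + m'))) * ((u : ZMod (p ^ (m + m'))) + v) = 0) := by
        intro u hu
        rw [Finset.mem_filter] at hu
        rw [Finset.mem_union, Finset.mem_filter, Finset.mem_filter]
        rcases pair p m m' hp hm a b hb u v hu.2 hv.2 with h2 | h2
        · left
          refine ⟨Finset.mem_univ _, ?_⟩
          rw [← sub_eq_add_neg]
          exact hNx _ h2
        · right
          exact ⟨Finset.mem_univ _, hNx _ h2⟩
      refine (Finset.card_le_card h1).trans ((Finset.card_union_le _ _).trans ?_)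
      have h2 := card_shift (p ^ (m + m')) N hN (-(v : ZMod (p ^ (m + m'))))
      have h3 := card_shift (p ^ (m + m')) N hN (v : ZMod (p ^ (m + m')))
      omega
    split_ifs with h2
    · refine (hcom (2 * p ^ m') (by omega) ?_).trans (by omega)
      intro x hx
      rw [← hx]
      push_cast
      ring
    · refine hcom (p ^ m') hp0 ?_
      intro x hx
      have hu2 : IsUnit (2 : ZMod (p ^ (m + m'))) := by
        have h3 : IsUnit ((2 : ℕ) : ZMod (p ^ (m + m'))) := by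
          rw [ZMod.isUnit_iff_coprime]
          apply Nat.Coprime.pow_right
          rw [Nat.coprime_primes Nat.prime_two hp]
          exact fun h => h2 h.symm
        exact_mod_cast h3
      rw [mul_left_comm] at hx
      exact hu2.mul_right_eq_zero.1 hx

theorem aux (p m m' q : ℕ) [NeZero q] (hq : q = p ^ (m + m')) (hp : p.Prime) (hm : 1 ≤ m)
    (hmm : m ≤ m') (hmm' : m' ≤ m + 1) (a b : ZMod q) (hb : IsUnit b) :
    ‖∑ u : (ZMod q)ˣ, (ZMod.stdAddChar
      (a * (u : ZMod q) + b * ((u⁻¹ : (ZMod q)ˣ) : ZMod q)) : ℂ)‖ ≤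
    (if p = 2 then 8 else 2) * Real.sqrt ((p : ℝ) ^ (m + m')) := by
  have hpR : (0 : ℝ) < p := by exact_mod_cast hp.pos
  have hn : ((p ^ m' : ℕ) : ZMod q) * ((p ^ m' : ℕ) : ZMod q) = 0 := by
    rw [← Nat.cast_mul, ← pow_add, ZMod.natCast_eq_zero_iff, hq]
    exact pow_dvd_pow _ (by omega)
  have hcard : (univ.filter fun u : (ZMod q)ˣ =>
      cnd ((p ^ m' : ℕ) : ZMod q) a b u = 0).card ≤
      if p = 2 then 4 * p ^ m' else 2 * p ^ m' := by
    subst hq
    exact card_T p m m' hp hm a b hb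
  rw [restrict q _ a b hn]
  have htriv : ‖∑ u ∈ univ.filter (fun u : (ZMod q)ˣ => cnd ((p ^ m' : ℕ) : ZMod q) a b u = 0),
        (ZMod.stdAddChar (a * (u : ZMod q) + b * ((u⁻¹ : (ZMod q)ˣ) : ZMod q)) : ℂ)‖ ≤
      ((univ.filter (fun u : (ZMod q)ˣ => cnd ((p ^ m' : ℕ) : ZMod q) a b u = 0)).card : ℝ) := by
    refine (norm_sum_le _ _).trans ?_
    rw [Finset.sum_congr rfl fun u _ => norm_char q _, Finset.sum_const, nsmul_eq_mul, mul_one]
  have hsq : Real.sqrt ((p : ℝ) ^ (2 * m)) = (p : ℝ) ^ m := by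
    rw [mul_comm, pow_mul, Real.sqrt_sq (by positivity)]
  split_ifs with h2
  · -- p = 2
    rw [if_pos h2] at hcard
    refine htriv.trans ?_
    have h3 : ((univ.filter (fun u : (ZMod q)ˣ =>
        cnd ((p ^ m' : ℕ) : ZMod q) a b u = 0)).card : ℝ) ≤ 4 * (p : ℝ) ^ m' := by
      exact_mod_cast hcard
    refine h3.trans ?_
    have h4 : (p : ℝ) ^ m' ≤ 2 * (p : ℝ) ^ m := by
      calc (p : ℝ) ^ m' ≤ (p : ℝ) ^ (m + 1) :=
            pow_le_pow_right₀ (by exact_mod_cast hp.one_le) hmm'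
        _ = 2 * (p : ℝ) ^ m := by rw [pow_succ, h2]; push_cast; ring
    have h5 : (p : ℝ) ^ m ≤ Real.sqrt ((p : ℝ) ^ (m + m')) := by
      rw [← hsq]
      apply Real.sqrt_le_sqrt
      exact pow_le_pow_right₀ (by exact_mod_cast hp.one_le) (by omega)
    linarith
  · rw [if_neg h2] at hcard
    have hcard' : ((univ.filter (fun u : (ZMod q)ˣ =>
        cnd ((p ^ m' : ℕ) : ZMod q) a b u = 0)).card : ℝ) ≤ 2 * (p : ℝ) ^ m' := by
      exact_mod_cast hcard
    rcases Nat.lt_or_ge m m' with hlt | hge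
    · -- odd exponent
      have hm'1 : m' = m + 1 := by omega
      have hnr : ((p ^ m' : ℕ) : ZMod q) * ((p ^ m : ℕ) : ZMod q) = 0 := by
        rw [← Nat.cast_mul, ← pow_add, ZMod.natCast_eq_zero_iff, hq]
        exact pow_dvd_pow _ (by omega)
      have hr : ((p ^ m : ℕ) : ZMod q) * ((p ^ m : ℕ) : ZMod q) * ((p ^ m : ℕ) : ZMod q) = 0 := by
        rw [← Nat.cast_mul, ← Nat.cast_mul, ← pow_add, ← pow_add, ZMod.natCast_eq_zero_iff, hq]
        exact pow_dvd_pow _ (by omega)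
      have hav := average q _ _ a b hnr hr
      have hqR : (0 : ℝ) < q := by
        rw [hq]; push_cast; positivity
      have hu2 : IsUnit (2 : ZMod q) := by
        have h3 : IsUnit ((2 : ℕ) : ZMod q) := by
          rw [ZMod.isUnit_iff_coprime, hq]
          apply Nat.Coprime.pow_right
          rw [Nat.coprime_primes Nat.prime_two hp]
          exact fun h => h2 h.symm
        exact_mod_cast h3
      have hG : ∀ u ∈ univ.filter (fun u : (ZMod q)ˣ => cnd ((p ^ m' : ℕ) : ZMod q) a b u = 0),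
          ‖∑ z : ZMod q, (ZMod.stdAddChar (cnd ((p ^ m : ℕ) : ZMod q) a b u * z +
            (b * ((u⁻¹ : (ZMod q)ˣ) : ZMod q)) * (((p ^ m : ℕ) : ZMod q) *
              ((p ^ m : ℕ) : ZMod q)) * (z * z)) : ℂ)‖ ≤ Real.sqrt q * (p : ℝ) ^ m := by
        intro u hu
        rw [Finset.mem_filter] at hu
        -- a u - b u⁻¹ is a multiple of p ^ m
        obtain ⟨X, hX⟩ := ZMod.intCast_surjective
          (a * (u : ZMod q) - b * ((u⁻¹ : (ZMod q)ˣ) : ZMod q))
        have hdvd : (p : ℤ) ^ m ∣ X := by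
          have h3 := hu.2
          unfold cnd at h3
          rw [← hX] at h3
          have h4 : ((p ^ m' : ℕ) : ZMod q) * (X : ZMod q) =
              (((p : ℤ) ^ m' * X : ℤ) : ZMod q) := by push_cast; rfl
          rw [h4, ZMod.intCast_zmod_eq_zero_iff_dvd] at h3
          have hp0 : (p : ℤ) ^ m' ≠ 0 := pow_ne_zero _ (by exact_mod_cast hp.ne_zero)
          have h5 : ((q : ℕ) : ℤ) = (p : ℤ) ^ m' * (p : ℤ) ^ m := by
            rw [hq]
            push_cast
            ring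
          rwa [h5, mul_dvd_mul_iff_left hp0] at h3
        obtain ⟨Y, hY⟩ := hdvd
        have h3 : cnd ((p ^ m : ℕ) : ZMod q) a b u =
            (((p ^ m : ℕ) : ZMod q) * ((p ^ m : ℕ) : ZMod q)) * (Y : ZMod q) := by
          unfold cnd
          rw [← hX, hY]
          push_cast
          ring
        have hd : IsUnit (2 * (b * ((u⁻¹ : (ZMod q)ˣ) : ZMod q))) :=
          hu2.mul (hb.mul (u⁻¹).isUnit)
        have hD : (univ.filter fun h : ZMod q =>
            (((p ^ m : ℕ) : ZMod q) * ((p ^ m : ℕ) : ZMod q)) * h = 0).card ≤ p ^ m * p ^ m := by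
          have h4 := IsAddCyclic.card_nsmul_eq_zero_le (α := ZMod q)
            (n := p ^ m * p ^ m) (by have := pow_pos hp.pos m; positivity)
          refine le_trans (le_of_eq ?_) h4
          congr 1
          ext h
          rw [Finset.mem_filter, Finset.mem_filter, nsmul_eq_mul, Nat.cast_mul]
        have h4 := quad q (((p ^ m : ℕ) : ZMod q) * ((p ^ m : ℕ) : ZMod q)) (Y : ZMod q)
          (b * ((u⁻¹ : (ZMod q)ˣ) : ZMod q)) hd _ hD
        rw [h3]
        refine le_of_sq_le_sq ?_ (by positivity)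
        rw [mul_pow, Real.sq_sqrt hqR.le]
        refine h4.trans (le_of_eq ?_)
        push_cast
        ring
      have h3 : (q : ℝ) * ‖∑ u ∈ univ.filter (fun u : (ZMod q)ˣ =>
          cnd ((p ^ m' : ℕ) : ZMod q) a b u = 0),
          (ZMod.stdAddChar (a * (u : ZMod q) + b * ((u⁻¹ : (ZMod q)ˣ) : ZMod q)) : ℂ)‖ ≤
          (2 * (p : ℝ) ^ m') * (Real.sqrt q * (p : ℝ) ^ m) := by
        have h4 := congrArg norm hav
        rw [norm_mul, Complex.norm_natCast] at h4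
        rw [h4]
        refine (norm_sum_le _ _).trans ?_
        calc _ ≤ ∑ u ∈ univ.filter (fun u : (ZMod q)ˣ => cnd ((p ^ m' : ℕ) : ZMod q) a b u = 0),
              Real.sqrt q * (p : ℝ) ^ m := by
              refine Finset.sum_le_sum fun u hu => ?_
              rw [norm_mul, norm_char, one_mul]
              exact hG u hu
          _ ≤ (2 * (p : ℝ) ^ m') * (Real.sqrt q * (p : ℝ) ^ m) := by
              rw [Finset.sum_const, nsmul_eq_mul]
              exact mul_le_mul_of_nonneg_right hcard' (by positivity)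
      have h4 : (2 * (p : ℝ) ^ m') * (Real.sqrt q * (p : ℝ) ^ m) =
          (q : ℝ) * (2 * Real.sqrt q) := by
        have : (q : ℝ) = (p : ℝ) ^ m * (p : ℝ) ^ m' := by
          rw [hq]; push_cast; ring
        rw [this]
        ring
      rw [h4] at h3
      have h5 := le_of_mul_le_mul_left h3 hqR
      refine h5.trans (le_of_eq ?_)
      rw [hq]
      push_cast
      rfl
    · have hmm2 : m' = m := by omega
      refine htriv.trans (hcard'.trans (le_of_eq ?_))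
      rw [hmm2, ← two_mul m, hsq]

theorem wpp : G_WPP := by
  refine ⟨8, by norm_num, fun p k _ hp hk a b hb => ?_⟩
  obtain ⟨m, m', hkm, hm, hmm, hmm'⟩ : ∃ m m' : ℕ, k = m + m' ∧ 1 ≤ m ∧ m ≤ m' ∧ m' ≤ m + 1 :=
    ⟨k / 2, k - k / 2, by omega, by omega, by omega, by omega⟩
  have h1 := aux p m m' (p ^ k) (by rw [hkm]) hp hm hmm hmm' a b hb
  rw [← hkm] at h1
  exact h1

end Pool.Agent.W74.CY
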